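import Pool.Agent.J4.H92.PI.Aff

/-!
# Two ends, `h(ν, ν)` a function of `tr_S h`; arbitrary sign of the scalar curvature

Initial data `(g, h)` on `ℝ³ ∖ {0}` with two ends, `g = φ(|x|)⁴ δ` spherically symmetric, `h` a
symmetric tensor field without any symmetry. The special end is `|x| → ∞`; at the other end it is
only used that the area radius `φ(r)² r` tends to infinity as `r → 0`.

Suppose that on each centred sphere `S` with `|x| > r₂` outside the outermost minimal centred sphere
`h(ν, ν) = f(tr_S h)` for some function `f = f_S`, which is convex if the mean value of `tr_S h`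
over `S` is positive, and concave if it is negative. Any affine `f_S` is allowed, so the condition
holds if `h(ν, ν)` is spherically symmetric, if `tr_g h` is, or if `h` is the sum of a spherically
symmetric tensor, of a multiple `λ g`, `λ` an arbitrary function of `x`, and of a tensor with
`h(ν, ν) = tr_S h = 0`. NOTHING is assumed on the sign of the scalar curvature for `|x| > r₂`
(while `R_g ≥ 0` for `|x| ≤ r₂`; one may take `r₂ = 0`). The matter flux is assumed to satisfy
`⟨tr_S h⟩ ⟨J(ν)⟩ ≤ 0` (for instance `J = 0`), or `|⟨tr_S h⟩| ≤ H` and `|⟨J(ν)⟩| ≤ |J|` on `S`.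
Then the dominant energy condition implies `m ≥ √(A / 16π)`.

The proof: at a point of `S` where `tr_S h` equals its mean value `q`, the pointwise dominant energy
condition gives by Jensen's inequality what is needed for the monotonicity of
`ρ (1 - ρ² H² / 4 + ρ² q² / 4)`.
-/

set_option autoImplicit false

namespace Pool.Agent.Results.MP_ede089_mp.FunctionOfTrace

open Pool.Agent.K4H63.PI Pool.Agent.J4.H92.PI Filter Topology

/-- The centred sphere of radius `r` is outside the outermost minimal centred sphere: it and all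
larger ones have positive mean curvature. -/
def Outside (φ : ℝ → ℝ) (r : ℝ) : Prop := ∀ s : ℝ, r ≤ s → 0 < sphereH φ s

/-- The least area of a centred sphere (these spheres are among the surfaces separating the two
ends). -/
noncomputable def leastArea (φ : ℝ → ℝ) : ℝ := sInf (sphereArea φ '' Set.Ioi 0)

/-- On the centred sphere of radius `r`, `h(ν, ν)` is a function of `tr_S h`, convex if the mean
value of `tr_S h` is positive, concave if it is negative. -/
def IsFunctionOfTrace (φ : ℝ → ℝ) (h : E → Matrix (Fin 3) (Fin 3) ℝ) (r : ℝ) : Prop :=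
  ∃ f : ℝ → ℝ, (∀ w : E, ‖w‖ = 1 → hNN φ h (r • w) = f (trS φ h (r • w))) ∧
    (0 < sphAvg (trS φ h) r → ConvexOn ℝ Set.univ f) ∧
    (sphAvg (trS φ h) r < 0 → ConcaveOn ℝ Set.univ f)

theorem result (φ : ℝ → ℝ) (h : E → Matrix (Fin 3) (Fin 3) ℝ) (m r₂ : ℝ)
    -- `φ` is positive and `C²` on `(0, ∞)`; `h` is symmetric and `C¹` on `ℝ³ ∖ {0}`
    (hφ : Good φ) (hh : Tensor h)
    -- asymptotic flatness of the special end, total mass `m`
    (flat : FlatEnd φ m) (decay : Decay h)
    -- the area radius tends to infinity at the other end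
    (other : Tendsto (fun r : ℝ => (φ r) ^ 2 * r) (𝓝[>] 0) atTop)
    -- the dominant energy condition
    (dec : ∀ x : E, x ≠ 0 → Outside φ ‖x‖ →
      momentumNorm (metric φ) h x ≤ energy (metric φ) h x)
    -- `R_g ≥ 0` for `|x| ≤ r₂`
    (inner : ∀ x : E, x ≠ 0 → Outside φ ‖x‖ → ‖x‖ ≤ r₂ → 0 ≤ scal (metric φ) x)
    -- `h(ν, ν)` is a function of `tr_S h` for `|x| > r₂`
    (outer : ∀ r : ℝ, 0 < r → Outside φ r → r₂ < r → IsFunctionOfTrace φ h r)
    -- the matter flux
    (flux : ∀ r : ℝ, 0 < r → Outside φ r → r₂ < r →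
      sphAvg (trS φ h) r * sphAvg (radialJ φ h) r ≤ 0 ∨
      (|sphAvg (trS φ h) r| ≤ sphereH φ r ∧
        ∀ w : E, ‖w‖ = 1 → |sphAvg (radialJ φ h) r| ≤ momentumNorm (metric φ) h (r • w))) :
    Real.sqrt (leastArea φ / (16 * Real.pi)) ≤ m := by
  obtain ⟨r₁, hr₁, hy₁⟩ := exists_nonpos hφ other
  obtain ⟨r₀, h10, hy0, hgt⟩ : ∃ r₀, r₁ ≤ r₀ ∧ pp φ r₀ = 0 ∧ ∀ r, r₀ < r → 0 < pp φ r := by
    rcases last_minimal hφ hr₁ (flat.pp hφ) with hall | hex
    · exact absurd (hall r₁ le_rfl) (not_lt.2 hy₁)
    · exact hex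
  have h00 : 0 < r₀ := hr₁.trans_le h10
  have hOut : ∀ r : ℝ, r₀ < r → Outside φ r := by
    intro r hr s hs
    have h1 : r₀ < s := hr.trans_le hs
    have h0 : 0 < s := h00.trans h1
    have hp := hφ.pos s h0
    have hy := hgt s h1
    rw [sphereH_eq hφ h0]
    positivity
  have hne : ∀ x : E, r₀ < ‖x‖ → x ≠ 0 := fun x hx => norm_pos_iff.1 (h00.trans hx)
  have hfin := two_ends hφ hh flat decay (r₂ := r₂) h00 hy0 hgt
    (fun x hx h2 => inner x (hne x hx) (hOut _ hx) h2)
    (fun r hr hr2 => by
      have h0 : 0 < r := h00.trans hr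
      exact rel_step hφ hh h0 (hgt r hr).le
        (fun w hw => dec _ (ray_ne hw h0) (by rw [ray_norm hw h0]; exact hOut r hr))
        (outer r h0 (hOut r hr) hr2) (flux r h0 (hOut r hr) hr2))
  have h3 : leastArea φ ≤ sphereArea φ r₀ := by
    refine csInf_le ⟨0, ?_⟩ ⟨r₀, h00, rfl⟩
    rintro _ ⟨r, _, rfl⟩
    unfold sphereArea
    positivity
  have hpi := Real.pi_pos
  refine (Real.sqrt_le_sqrt (div_le_div_of_nonneg_right h3 (by positivity))).trans ?_
  rw [sqrt_area hφ h00]
  linarith

end Pool.Agent.Results.MP_ede089_mp.FunctionOfTrace
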