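import Pool.Agent.J4.H92.PI.Jen2

/-!
# Two ends, spherically symmetric metric, arbitrary second fundamental form

Initial data `(g, h)` on `ℝ³ ∖ {0}` with two ends, `g = φ(|x|)⁴ δ` spherically symmetric, and `h` an
ARBITRARY symmetric tensor field: no symmetry, and no condition on its trace or on its trace over
the centred spheres `S`. The special end is `|x| → ∞`; at the other end it is only used that the
area radius `φ(r)² r` tends to infinity as `r → 0` (this holds if it is asymptotically flat).

Suppose that outside the outermost minimal centred sphere the scalar curvature `R_g` changes sign at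
most once, from `+` to `-`: `R_g ≥ 0` for `|x| ≤ r₂`, and `R_g < 0` for `|x| > r₂` (`R_g = 0` is
allowed for `|x| > r₂` at points where `tr_S h ≠ 0`); and that for `|x| > r₂` the matter flux satisfies
`(tr_S h) J(ν) ≤ 0` at the points where `|tr_S h| > H` (for instance `J = 0`, or `|tr_S h| ≤ H`
everywhere). Then the dominant energy condition implies `m ≥ √(A / 16π)`.

For `R_g ≥ 0` everywhere the inequality is a theorem of Huisken-Ilmanen and Bray; here `R_g` is
negative near infinity. The proof: where `R_g < 0` the dominant energy condition forces `tr_S h`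
to be nowhere zero on `S`, hence of one sign. With `q` the average of `tr_S h` over `S`, and with the
energy condition solved for `h(ν, ν)`, the divergence term drops out of the average, and
Jensen's inequality `⟨tr_S h⟩ ⟨1 / tr_S h⟩ ≥ 1` shows that `ρ (1 - ρ² H² / 4 + ρ² q² / 4)` is
nondecreasing. Where `R_g ≥ 0` the Hawking mass `ρ (1 - ρ² H² / 4)` is nondecreasing.
-/

set_option autoImplicit false

namespace Pool.Agent.Results.MP_ede089_mp.OneSignChange

open Pool.Agent.K4H63.PI Pool.Agent.J4.H92.PI Filter Topology

/-- The point `x` is outside the outermost minimal centred sphere: the centred sphere through `x`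
and all larger ones have positive mean curvature. -/
def Outside (φ : ℝ → ℝ) (x : E) : Prop := ∀ r : ℝ, ‖x‖ ≤ r → 0 < sphereH φ r

/-- The least area of a centred sphere (these spheres are among the surfaces separating the two
ends). -/
noncomputable def leastArea (φ : ℝ → ℝ) : ℝ := sInf (sphereArea φ '' Set.Ioi 0)

theorem result (φ : ℝ → ℝ) (h : E → Matrix (Fin 3) (Fin 3) ℝ) (m r₂ : ℝ)
    -- `φ` is positive and `C²` on `(0, ∞)`; `h` is symmetric and `C¹` on `ℝ³ ∖ {0}`
    (hφ : Good φ) (hh : Tensor h)
    -- asymptotic flatness of the special end, total mass `m`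
    (flat : FlatEnd φ m) (decay : Decay h)
    -- the area radius tends to infinity at the other end
    (other : Tendsto (fun r : ℝ => (φ r) ^ 2 * r) (𝓝[>] 0) atTop)
    -- the dominant energy condition
    (dec : ∀ x : E, x ≠ 0 → Outside φ x →
      momentumNorm (metric φ) h x ≤ energy (metric φ) h x)
    -- outside the outermost minimal sphere the scalar curvature changes sign at most once
    (inner : ∀ x : E, x ≠ 0 → Outside φ x → ‖x‖ ≤ r₂ → 0 ≤ scal (metric φ) x)
    (outer : ∀ x : E, x ≠ 0 → Outside φ x → r₂ < ‖x‖ → scal (metric φ) x < 0 ∨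
      (scal (metric φ) x = 0 ∧ trS φ h x ≠ 0))
    -- the matter flux at points where the sphere is trapped
    (flux : ∀ x : E, x ≠ 0 → Outside φ x → r₂ < ‖x‖ → |trS φ h x| ≤ sphereH φ ‖x‖ ∨
      trS φ h x * radialJ φ h x ≤ 0) :
    Real.sqrt (leastArea φ / (16 * Real.pi)) ≤ m := by
  obtain ⟨r₁, hr₁, hy₁⟩ := exists_nonpos hφ other
  obtain ⟨r₀, h10, hy0, hgt⟩ : ∃ r₀, r₁ ≤ r₀ ∧ pp φ r₀ = 0 ∧ ∀ r, r₀ < r → 0 < pp φ r := by
    rcases last_minimal hφ hr₁ (flat.pp hφ) with hall | hex
    · exact absurd (hall r₁ le_rfl) (not_lt.2 hy₁)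
    · exact hex
  have h00 : 0 < r₀ := hr₁.trans_le h10
  have hOut : ∀ x : E, r₀ < ‖x‖ → Outside φ x := by
    intro x hx r hr
    have h1 : r₀ < r := hx.trans_le hr
    have h0 : 0 < r := h00.trans h1
    have hp := hφ.pos r h0
    have hy := hgt r h1
    rw [sphereH_eq hφ h0]
    positivity
  have hne : ∀ x : E, r₀ < ‖x‖ → x ≠ 0 := fun x hx => norm_pos_iff.1 (h00.trans hx)
  have hfin := jensen_theorem hφ hh flat decay (r₂ := r₂) h00 hy0 hgt
    (fun x hx => dec x (hne x hx) (hOut x hx))
    (fun x hx h2 => inner x (hne x hx) (hOut x hx) h2)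
    (fun r hr hr2 w hw => by
      have h0 : 0 < r := h00.trans hr
      have hp := hφ.pos r h0
      have hrn := ray_norm hw h0
      have hx := ray_ne hw h0
      have hO := hOut (r • w) (by rw [hrn]; exact hr)
      have hd := dec (r • w) hx hO
      have htr : trS φ h (r • w) = ((φ r) ^ 4)⁻¹ * qq h (r • w) := by
        unfold trS
        rw [hrn]
      have hy := hgt r hr
      refine ⟨?_, ?_, ?_⟩
      · rcases outer (r • w) hx hO (by rw [hrn]; exact hr2) with h1 | h1
        · exact h1.le
        · exact h1.1.le
      · rcases outer (r • w) hx hO (by rw [hrn]; exact hr2) with h1 | h1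
        · exact qq_ne_zero hφ hh hx hd h1
        · intro hq
          apply h1.2
          rw [htr, hq, mul_zero]
      · rcases flux (r • w) hx hO (by rw [hrn]; exact hr2) with h1 | h1
        · rw [hrn, sphereH_eq hφ h0, htr, abs_mul,
            abs_of_pos (show (0:ℝ) < ((φ r) ^ 4)⁻¹ by positivity), le_div_iff₀ (by positivity)] at h1
          have h2 : r * |qq h (r • w)| ≤ 2 * (φ r) ^ 2 * pp φ r := by
            have e : ((φ r) ^ 4)⁻¹ * |qq h (r • w)| * ((φ r) ^ 2 * r) =
                (r * |qq h (r • w)|) / (φ r) ^ 2 := by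
              field_simp
            rw [e, div_le_iff₀ (by positivity)] at h1
            linarith
          have h3 := mul_le_mul_of_nonneg_right h2 (abs_nonneg (Jn φ h (r • w)))
          have h4 : r * (qq h (r • w) * Jn φ h (r • w)) ≤
              r * |qq h (r • w)| * |Jn φ h (r • w)| := by
            rw [mul_assoc, ← abs_mul]
            exact mul_le_mul_of_nonneg_left (le_abs_self _) h0.le
          linarith
        · have e1 : radialJ φ h (r • w) = ((φ r) ^ 6)⁻¹ * Jn φ h (r • w) := by
            unfold radialJ Jn un
            simp only [momentum_eq hφ hh hx, hrn, Fin.sum_univ_three]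
            field_simp
          rw [htr, e1] at h1
          have h2 : qq h (r • w) * Jn φ h (r • w) ≤ 0 := by
            by_contra hcon
            push Not at hcon
            have : 0 < ((φ r) ^ 10)⁻¹ * (qq h (r • w) * Jn φ h (r • w)) := by positivity
            have e2 : ((φ r) ^ 4)⁻¹ * qq h (r • w) * (((φ r) ^ 6)⁻¹ * Jn φ h (r • w)) =
                ((φ r) ^ 10)⁻¹ * (qq h (r • w) * Jn φ h (r • w)) := by
              field_simp
            rw [e2] at h1
            linarith
          have h3 := mul_nonpos_of_nonneg_of_nonpos h0.le h2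
          have h4 : 0 ≤ pp φ r * (2 * (φ r) ^ 2 * |Jn φ h (r • w)|) := by positivity
          linarith)
  have h3 : leastArea φ ≤ sphereArea φ r₀ := by
    refine csInf_le ⟨0, ?_⟩ ⟨r₀, h00, rfl⟩
    rintro _ ⟨r, _, rfl⟩
    unfold sphereArea
    positivity
  have hpi := Real.pi_pos
  refine (Real.sqrt_le_sqrt (div_le_div_of_nonneg_right h3 (by positivity))).trans ?_
  rw [sqrt_area hφ h00]
  linarith

end Pool.Agent.Results.MP_ede089_mp.OneSignChange
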