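import Pool.Agent.J4.H62.QS.End

/-!
# Several ends: quasi-spherical metrics, without any symmetry

The special end of an initial data set `(M, g, h)` contains a region `{|x| > a}` of `ℝ³` on which
`g = N(x)² dr² + r² dσ²`, where the lapse `N` is an ARBITRARY positive function of all three
variables (`g` has no symmetry; its scalar curvature may have any sign), and `h` is a symmetric
tensor field without any symmetry. Nothing is assumed on the rest of `M`. On a centred sphere `S`
with unit normal `ν` let `H = 2 / (r N)` be the mean curvature, `β = h(ν, ·)` on `S`, and `h°` the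
trace-free part of `h` on `S`.

The dominant energy condition is used outside the outermost centred sphere with
`∫ H² ≤ ∫ (tr_S h)²`, where at each point `|tr_S h| ≤ H` or `(tr_S h) J(ν) ≤ 0` (for instance
`J = 0`), and where on each centred sphere `S`

* `|∇_S (H tr_S h)| ≤ |∇_S (H²)|` at every point, with NO condition on `h(ν, ν)`, `β` and `h°`
  (examples: `tr_S h` is constant on `S`, `|tr_S h| ≤ 2 H`; or `tr_S h = s(r) H`, `|s| ≤ 1`), or
* `∫_S (|β|² + |h°|² / 2 + |∇ log N|² + β((tr_S h) ∇ log N - ∇ tr_S h) / H) ≥ 0`.

Then `m ≥ √(|S| / 16π)` for every centred sphere `S` with `∫_S H² ≤ ∫_S (tr_S h)²`, and also for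
the inner boundary `|x| = a` if it is minimal (`∫ H² → 0` as `r → a`). Such spheres separate the
special end from all the other ends, so `A ≤ |S|`. The proof: with `F = r + r³ ⟨(tr_S h)² - H²⟩ / 4`,
`⟨·⟩` the mean over `S`, one has `F' = r² ⟨μ - (tr_S h / H) J(ν) + q⟩`, where `q` is the integrand in
the second condition, a quadratic form in `β` which is nonnegative under the first condition.
-/

set_option autoImplicit false

namespace Pool.Agent.Results.MP_ede089_mp.QuasiSpherical

open Pool.Agent.K4H63.PI Pool.Agent.J4.H62.PI Pool.Agent.J4.H62.QS Filter Topology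

/-- The area of the centred sphere of radius `r` in the metric `N² dr² + r² dσ²`. -/
noncomputable def area (r : ℝ) : ℝ := 4 * Real.pi * r ^ 2

/-- `|∇_S F|²`, the square of the norm of the gradient along the centred sphere through `x` (the
metric of the sphere of radius `r` is the round one). -/
noncomputable def gradSq (F : E → ℝ) (x : E) : ℝ := (∑ i, pd i F x * pd i F x) - dr F x * dr F x

theorem result (a : ℝ) (ha : 0 ≤ a) (N : E → ℝ) (h : E → Matrix (Fin 3) (Fin 3) ℝ) (m r : ℝ)
    -- the data on `{|x| > a}`: `N` is positive and `C²`; `h` is symmetric and `C¹`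
    (hN : LapseFrom a N) (hh : TensorFrom a h)
    -- asymptotic flatness of the special end, total mass `m`
    (flat : FlatQS N m) (decay : DecayFar h)
    -- the centred sphere of radius `r` is trapped on average, or `r = a` and the spheres become
    -- minimal as they approach the inner boundary
    (start : (a < r ∧ Trapped N h r) ∨
      (r = a ∧ Tendsto (sphAvg fun x => (mcS N x) ^ 2) (𝓝[>] a) (𝓝 0)))
    -- the dominant energy condition and the flux condition
    (dec : ∀ x : E, r < ‖x‖ → Outside N h ‖x‖ → momentumNorm (qs N) h x ≤ energy (qs N) h x)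
    (flux : ∀ x : E, r < ‖x‖ → Outside N h ‖x‖ → |qq h x| ≤ mcS N x ∨ qq h x * JN N h x ≤ 0)
    -- the condition on the centred spheres
    (cond : ∀ s, r < s → Outside N h s →
      (∀ x : E, ‖x‖ = s → gradSq (fun y => mcS N y * qq h y) x ≤ gradSq (fun y => (mcS N y) ^ 2) x) ∨
      0 ≤ sphAvg (QQ N h) s) :
    Real.sqrt (area r / (16 * Real.pi)) ≤ m := by
  have har : a ≤ r := by
    rcases start with h1 | h1
    · exact h1.1.le
    · exact h1.1.ge
  have hr0 : 0 ≤ r := ha.trans har
  have hcond : ∀ s, r < s → Outside N h s → CondAt N h s := by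
    intro s hs hO
    rcases cond s hs hO with h1 | h1
    · left
      intro w hw
      exact h1 _ (ray_norm hw (hr0.trans_lt hs))
    · right
      exact h1
  have key : r ≤ 2 * m := by
    rcases start with ⟨h1, h2⟩ | ⟨h1, h2⟩
    · exact end_trapped ha hN hh flat decay h1 h2 dec flux hcond
    · subst h1
      by_cases hex : ∃ s, r < s ∧ Trapped N h s
      · obtain ⟨s, hs, ht⟩ := hex
        have := end_trapped ha hN hh flat decay hs ht (fun x hx => dec x (hs.trans hx))
          (fun x hx => flux x (hs.trans hx)) (fun t ht' => hcond t (hs.trans ht'))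
        linarith
      · push Not at hex
        have h3 : ∀ s, r < s → s - s ^ 3 / 4 * sphAvg (fun x => (mcS N x) ^ 2) s ≤ 2 * m :=
          fun s hs => end_untrapped ha hN hh flat decay hex dec flux hcond hs
        have h4 : Tendsto (fun s : ℝ => s - s ^ 3 / 4 * sphAvg (fun x => (mcS N x) ^ 2) s)
            (𝓝[>] r) (𝓝 (r - r ^ 3 / 4 * 0)) := by
          have c1 : Tendsto (fun s : ℝ => s) (𝓝[>] r) (𝓝 r) :=
            (continuous_id.tendsto r).mono_left nhdsWithin_le_nhds
          have c2 : Tendsto (fun s : ℝ => s ^ 3 / 4) (𝓝[>] r) (𝓝 (r ^ 3 / 4)) :=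
            ((continuous_id.pow 3).div_const 4 |>.tendsto r).mono_left nhdsWithin_le_nhds
          exact c1.sub (c2.mul h2)
        rw [mul_zero, sub_zero] at h4
        exact le_of_tendsto h4 (eventually_nhdsWithin_of_forall fun s hs => h3 s hs)
  have hpi := Real.pi_ne_zero
  have e : area r / (16 * Real.pi) = (r / 2) ^ 2 := by
    unfold area
    field_simp
    ring
  rw [e, Real.sqrt_sq (by positivity)]
  linarith

end Pool.Agent.Results.MP_ede089_mp.QuasiSpherical
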