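import Pool.Agent.J4.H62.PI.Ext2

/-!
# Several ends: spherically symmetric metric near the special end, arbitrary `h`, arbitrary interior

The special end of an initial data set `(M, g, h)` is (or contains) a region `{|x| > a}` of `ℝ³`,
`a ≥ 0`, on which `g = φ(|x|)⁴ δ` is spherically symmetric, while `h` is an arbitrary symmetric
tensor field without any symmetry. Nothing at all is assumed on the rest of `M`: its topology, the
number of the other ends, its metric, its second fundamental form, or the energy condition there.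

Let `ω(r, θ)`, `θ ∈ Θ`, be a family of points of the unit sphere moving with `r`, `ν` a
probability measure on the compact space `Θ`, and for a centred sphere `S` of radius `r` write `⟨·⟩`
for the average over the points `r ω(r, θ)`. Examples: `Θ` the sphere, `ω(r, θ) = θ` and `ν` the
uniform measure (the mean over `S`); `Θ` finite (finitely many curves); `Θ` a point (one curve).
With `v` the velocity of the points inside the centred spheres, `β = h(ν, ·)` on `S`, and `h°` the
trace-free part of `h` on `S`, suppose that on all centred spheres outside the outermost one with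
`⟨(tr_S h)²⟩ ≥ H²` or `H ≤ 0`

* the dominant energy condition holds at the points `r ω(r, θ)`,
* `|tr_S h| ≤ H` or `(tr_S h) J(ν) ≤ 0` at these points (for instance `J = 0`), and
* `⟨(tr_S h) (div_S β + ∂_v tr_S h) + H (2 |β|² + |h°|²) / 2⟩ ≥ 0`.

If such a sphere exists, in particular if the area radius tends to infinity at the inner end of
`{|x| > a}`, then `m ≥ √(A / 16π)`. The proof: `ρ (1 - ρ² H² / 4) + ρ³ ⟨(tr_S h)²⟩ / 4`, `ρ` the area
radius, is nondecreasing outside that sphere, where it equals `ρ`.
-/

set_option autoImplicit false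

namespace Pool.Agent.Results.MP_ede089_mp.TransportedMean

open Pool.Agent.K4H63.PI Pool.Agent.J4.H92.PI Pool.Agent.J4.H62.PI Filter Topology MeasureTheory

/-- The least area of a centred sphere in `{|x| > a}` (these spheres are among the surfaces
separating the special end from all the other ends). -/
noncomputable def leastArea (a : ℝ) (φ : ℝ → ℝ) : ℝ := sInf (sphereArea φ '' Set.Ioi a)

/-- The radius `r` is outside the outermost trapped centred sphere: for it and all larger radii
`0 < H` and `⟨(tr_S h)²⟩ < H²`. -/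
def Outside {Θ : Type} [TopologicalSpace Θ] [MeasurableSpace Θ] (φ : ℝ → ℝ)
    (h : E → Matrix (Fin 3) (Fin 3) ℝ) (ω : ℝ → Θ → E) (ν : Measure Θ) (r : ℝ) : Prop :=
  ∀ s, r ≤ s → 0 < sphereH φ s ∧ ∫ θ, (trS φ h (s • ω s θ)) ^ 2 ∂ν < (sphereH φ s) ^ 2

theorem result {Θ : Type} [TopologicalSpace Θ] [CompactSpace Θ] [MeasurableSpace Θ] [BorelSpace Θ]
    (ν : Measure Θ) [IsProbabilityMeasure ν] (a : ℝ) (ha : 0 ≤ a) (φ : ℝ → ℝ)
    (h : E → Matrix (Fin 3) (Fin 3) ℝ) (m : ℝ)
    -- the data on `{|x| > a}`: `φ` is positive and `C²`; `h` is symmetric and `C¹`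
    (hφ : GoodFrom a φ) (hh : TensorFrom a h)
    -- asymptotic flatness of the special end, total mass `m`
    (flat : FlatEnd φ m) (decay : DecayFar h)
    -- the moving points `ω(r, θ)` of the unit sphere, with velocity `ω'(r, θ)`
    (ω ω' : ℝ → Θ → E) (moving : Moving a ω ω')
    -- some centred sphere is trapped; this holds if the area radius tends to infinity for `r → a`
    (start : Tendsto (fun r : ℝ => (φ r) ^ 2 * r) (𝓝[>] a) atTop ∨
      ∃ r, a < r ∧ (sphereH φ r ≤ 0 ∨ (sphereH φ r) ^ 2 ≤ ∫ θ, (trS φ h (r • ω r θ)) ^ 2 ∂ν))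
    -- the dominant energy condition at the moving points outside the outermost trapped sphere
    (dec : ∀ r, a < r → Outside φ h ω ν r → ∀ θ,
      momentumNorm (metric φ) h (r • ω r θ) ≤ energy (metric φ) h (r • ω r θ))
    -- the matter flux at the points where the sphere is trapped
    (flux : ∀ r, a < r → Outside φ h ω ν r → ∀ θ, |trS φ h (r • ω r θ)| ≤ sphereH φ r ∨
      trS φ h (r • ω r θ) * radialJ φ h (r • ω r θ) ≤ 0)
    -- the average condition
    (cond : ∀ r, a < r → Outside φ h ω ν r →
      0 ≤ ∫ θ, (trS φ h (r • ω r θ) * (divS φ h (r • ω r θ) +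
        deriv (fun t => trS φ h (r • ω t θ)) r / (φ r) ^ 2) +
        sphereH φ r * transS φ h (r • ω r θ) / 2) ∂ν) :
    Real.sqrt (leastArea a φ / (16 * Real.pi)) ≤ m := by
  obtain ⟨r₁, hr₁, trapped⟩ : ∃ r, a < r ∧ (sphereH φ r ≤ 0 ∨
      (sphereH φ r) ^ 2 ≤ ∫ θ, (trS φ h (r • ω r θ)) ^ 2 ∂ν) := by
    rcases start with h1 | h1
    · obtain ⟨r, hr, h2⟩ := exists_nonpos_from hφ h1 ha
      exact ⟨r, hr, Or.inl h2⟩
    · exact h1
  obtain ⟨r₀, h10, h2⟩ := mean_end moving ha hφ hh ν flat decay hr₁ trapped
    (fun r hr hu => dec r (hr₁.trans hr) hu) (fun r hr hu => flux r (hr₁.trans hr) hu)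
    (fun r hr hu => cond r (hr₁.trans hr) hu)
  have h3 : leastArea a φ ≤ sphereArea φ r₀ := by
    refine csInf_le ⟨0, ?_⟩ ⟨r₀, hr₁.trans_le h10, rfl⟩
    rintro _ ⟨r, _, rfl⟩
    unfold sphereArea
    positivity
  have hpi := Real.pi_pos
  exact (Real.sqrt_le_sqrt (div_le_div_of_nonneg_right h3 (by positivity))).trans h2

end Pool.Agent.Results.MP_ede089_mp.TransportedMean
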